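import Mathlib

namespace Pool.Agent.Results.MP_1c393c_co.Family

open Sum

/-- `c` is a proper edge colouring of `G`: edges sharing a vertex get different colours. -/
def Proper {V : Type} (G : SimpleGraph V) (c : Sym2 V → ℕ) : Prop :=
  ∀ u v w, G.Adj u v → G.Adj u w → v ≠ w → c s(u, v) ≠ c s(u, w)

/-- The number of colours `c` uses on the edges of `G`. -/
noncomputable def numColours {V : Type} (G : SimpleGraph V) (c : Sym2 V → ℕ) : ℕ :=
  (c '' G.edgeSet).ncard

/-- The chromatic index: the least number of colours used by a proper edge colouring. -/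
noncomputable def chi {V : Type} (G : SimpleGraph V) : ℕ :=
  sInf {m | ∃ c, Proper G c ∧ numColours G c = m}

/-- `G` contains a copy of `H` whose edges get pairwise distinct colours under `c`. -/
def Rainbow {V W : Type} (G : SimpleGraph V) (H : SimpleGraph W) (c : Sym2 V → ℕ) : Prop :=
  ∃ f : W → V, Function.Injective f ∧ (∀ a b, H.Adj a b → G.Adj (f a) (f b)) ∧
    ∀ e ∈ H.edgeSet, ∀ e' ∈ H.edgeSet, c (e.map f) = c (e'.map f) → e = e'

/-- `G` is a non-monotone witness for `H`. -/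
def Witness {V W : Type} (G : SimpleGraph V) (H : SimpleGraph W) : Prop :=
  (∀ c, Proper G c → numColours G c = chi G → Rainbow G H c) ∧
    ∃ c, Proper G c ∧ ¬ Rainbow G H c

abbrev VV (k : ℕ) := Fin 3 ⊕ (Fin (2 * k + 3) ⊕ Fin (2 * k + 3))

def A (k : ℕ) : VV k → VV k → Prop
  | inl s, inl t => s ≠ t
  | inl s, inr (inl i) => s = 0 ∧ i.val < k
  | inr (inl i), inl s => s = 0 ∧ i.val < k
  | inl s, inr (inr j) => s = 1 ∧ j.val < k
  | inr (inr j), inl s => s = 1 ∧ j.val < k
  | inr (inl i), inr (inr j) => ¬ (i = j ∧ i.val < k)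
  | inr (inr j), inr (inl i) => ¬ (i = j ∧ i.val < k)
  | inr (inl _), inr (inl _) => False
  | inr (inr _), inr (inr _) => False

def G (k : ℕ) : SimpleGraph (VV k) where
  Adj := A k
  symm := ⟨by rintro (s | i | i) (t | j | j) h <;> simp only [A] at h ⊢ <;> first | exact h | exact h.symm⟩
  loopless := ⟨by rintro (s | i | i) h <;> simp [A] at h⟩

def B (k : ℕ) : Fin 3 ⊕ Fin k → Fin 3 ⊕ Fin k → Prop
  | inl s, inl t => s ≠ t
  | inl s, inr _ => s = 0
  | inr _, inl s => s = 0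
  | inr _, inr _ => False

def H (k : ℕ) : SimpleGraph (Fin 3 ⊕ Fin k) where
  Adj := B k
  symm := ⟨by rintro (s | i) (t | j) h <;> simp only [B] at h ⊢ <;> first | exact h | exact h.symm⟩
  loopless := ⟨by rintro (s | i) h <;> simp [B] at h⟩

lemma GA {k : ℕ} (u v : VV k) : (G k).Adj u v ↔ A k u v := Iff.rfl
lemma HB {k : ℕ} (u v : Fin 3 ⊕ Fin k) : (H k).Adj u v ↔ B k u v := Iff.rfl

lemma H_conn (k : ℕ) : (H k).Connected := by
  have r : ∀ w, (H k).Reachable (inl 0) w := by
    rintro (s | i)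
    · by_cases h : s = 0
      · rw [h]
      · exact SimpleGraph.Adj.reachable (show B k (inl 0) (inl s) from fun e => h e.symm)
    · exact SimpleGraph.Adj.reachable (show B k (inl 0) (inr i) from rfl)
  exact ⟨fun a b => (r a).symm.trans (r b)⟩

def col (k : ℕ) : VV k → VV k → ℕ
  | inl s, inl t => 2 * k + (s.val + t.val - 1)
  | inl _, inr (inl i) => 2 * i.val
  | inr (inl i), inl _ => 2 * i.val
  | inl _, inr (inr j) => 2 * j.val
  | inr (inr j), inl _ => 2 * j.val
  | inr (inl i), inr (inr j) => if i.val + j.val < 2 * k + 3 then i.val + j.val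
      else i.val + j.val - (2 * k + 3)
  | inr (inr j), inr (inl i) => if i.val + j.val < 2 * k + 3 then i.val + j.val
      else i.val + j.val - (2 * k + 3)
  | inr (inl _), inr (inl _) => 0
  | inr (inr _), inr (inr _) => 0

def c1 (k : ℕ) : Sym2 (VV k) → ℕ :=
  Sym2.lift ⟨col k, by rintro (s | i | i) (t | j | j) <;> simp only [col]; omega⟩

lemma c1_proper (k : ℕ) : Proper (G k) (c1 k) := by
  rintro (⟨s, hs⟩ | ⟨s, hs⟩ | ⟨s, hs⟩) (⟨t, ht⟩ | ⟨t, ht⟩ | ⟨t, ht⟩) (⟨r, hr⟩ | ⟨r, hr⟩ | ⟨r, hr⟩)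
    h1 h2 h3 <;>
  simp only [GA, A, c1, Sym2.lift_mk, col, ne_eq, inl.injEq, inr.injEq, Fin.ext_iff,
    Fin.val_zero, Fin.val_one, reduceCtorEq, not_false_eq_true] at h1 h2 h3 ⊢ <;>
  (try split_ifs) <;> omega

lemma chi_le (k : ℕ) : chi (G k) ≤ 2 * k + 3 := by
  have h0 : chi (G k) ≤ numColours (G k) (c1 k) := Nat.sInf_le ⟨c1 k, c1_proper k, rfl⟩
  refine h0.trans ?_
  have : c1 k '' (G k).edgeSet ⊆ (Finset.range (2 * k + 3) : Set ℕ) := by
    rintro _ ⟨e, he, rfl⟩
    induction e using Sym2.ind with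
    | _ u v =>
    rw [SimpleGraph.mem_edgeSet] at he
    rw [Finset.coe_range, Set.mem_Iio]
    rcases u with ⟨s, hs⟩ | ⟨s, hs⟩ | ⟨s, hs⟩ <;> rcases v with ⟨t, ht⟩ | ⟨t, ht⟩ | ⟨t, ht⟩ <;>
    simp only [GA, A, c1, Sym2.lift_mk, col, ne_eq, Fin.ext_iff] at he ⊢ <;>
    (try split_ifs) <;> omega
  have h := Set.ncard_le_ncard this (Finset.finite_toSet _)
  rwa [Set.ncard_coe_finset, Finset.card_range] at h

def nbY (k : ℕ) (j i : Fin (2 * k + 3)) : VV k :=
  if i = j ∧ i.val < k then inl 1 else inr (inl i)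

lemma nbY_adj (k : ℕ) (j i : Fin (2 * k + 3)) : (G k).Adj (inr (inr j)) (nbY k j i) := by
  unfold nbY
  split_ifs with h
  · exact ⟨rfl, h.1 ▸ h.2⟩
  · exact h

lemma nbY_inj (k : ℕ) (j : Fin (2 * k + 3)) : Function.Injective (nbY k j) := by
  intro i i' h
  unfold nbY at h
  split_ifs at h with h1 h2
  · exact h1.1.trans h2.1.symm
  · simpa using h

lemma sees (k : ℕ) (c : Sym2 (VV k) → ℕ) (hc : Proper (G k) c)
    (hn : numColours (G k) c ≤ 2 * k + 3) (j : Fin (2 * k + 3)) (α : ℕ)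
    (hα : α ∈ c '' (G k).edgeSet) : ∃ i, c s(inr (inr j), nbY k j i) = α := by
  have inj : Function.Injective fun i => c s(inr (inr j), nbY k j i) := by
    intro i i' h
    by_contra hne
    exact hc _ _ _ (nbY_adj k j i) (nbY_adj k j i') (fun e => hne (nbY_inj k j e)) h
  have sub : Set.range (fun i => c s(inr (inr j), nbY k j i)) ⊆ c '' (G k).edgeSet := by
    rintro _ ⟨i, rfl⟩
    exact ⟨_, nbY_adj k j i, rfl⟩
  have e := Set.eq_of_subset_of_ncard_le sub (by
    rw [Set.ncard_range_of_injective inj, Nat.card_eq_fintype_card, Fintype.card_fin]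
    exact hn) (Set.toFinite _)
  rw [← e] at hα
  exact hα

lemma forced (k : ℕ) (c : Sym2 (VV k) → ℕ) (hc : Proper (G k) c)
    (hn : numColours (G k) c ≤ 2 * k + 3) (i : Fin (2 * k + 3)) (hi : i.val < k) :
    c s(inl 0, inr (inl i)) ≠ c s(inl 1, inl 2) := by
  intro hEq
  have hadj : (G k).Adj (inl 0) (inr (inl i)) := ⟨rfl, hi⟩
  choose φ hφ using fun j => sees k c hc hn j (c s(inl 0, inr (inl i)))
    ⟨s(inl 0, inr (inl i)), hadj, rfl⟩
  have nb : ∀ j, nbY k j (φ j) = inr (inl (φ j)) := by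
    intro j
    by_cases h : φ j = j ∧ (φ j).val < k
    · exfalso
      have e : nbY k j (φ j) = inl 1 := if_pos h
      have h1 := hφ j
      rw [e, hEq, Sym2.eq_swap] at h1
      exact hc (inl 1) (inr (inr j)) (inl 2) ⟨rfl, h.1 ▸ h.2⟩
        (show (1 : Fin 3) ≠ 2 by decide) (by simp) h1
    · exact if_neg h
  have adj : ∀ j, (G k).Adj (inr (inl (φ j))) (inr (inr j)) := fun j =>
    (nb j ▸ nbY_adj k j (φ j)).symm
  have val : ∀ j, c s(inr (inl (φ j)), inr (inr j)) = c s(inl 0, inr (inl i)) := fun j => by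
    rw [← hφ j, nb j, Sym2.eq_swap]
  have inj : Function.Injective φ := by
    intro j j' h
    by_contra hne
    have h2 := adj j'
    have h3 := val j'
    rw [← h] at h2 h3
    exact hc _ _ _ (adj j) h2 (by simpa using hne) ((val j).trans h3.symm)
  obtain ⟨j, hj⟩ := Finite.injective_iff_surjective.1 inj i
  have h2 := adj j
  have h3 := val j
  rw [hj] at h2 h3
  rw [Sym2.eq_swap (a := inl 0)] at h3
  exact hc _ _ _ h2 hadj.symm (by simp) h3

lemma edges {k : ℕ} (e : Sym2 (Fin 3 ⊕ Fin k)) (he : e ∈ (H k).edgeSet) :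
    (∃ w, (H k).Adj (inl 0) w ∧ e = s(inl 0, w)) ∨ e = s(inl 1, inl 2) := by
  induction e using Sym2.ind with
  | _ u v =>
  rw [SimpleGraph.mem_edgeSet] at he
  by_cases hu : u = inl 0
  · exact Or.inl ⟨v, hu ▸ he, by rw [hu]⟩
  by_cases hv : v = inl 0
  · exact Or.inl ⟨u, hv ▸ he.symm, by rw [hv, Sym2.eq_swap]⟩
  right
  rcases u with s | i <;> rcases v with t | j <;> simp only [HB, B] at he
  · fin_cases s <;> fin_cases t <;> simp_all
  · exact absurd (by rw [he]) hu
  · exact absurd (by rw [he]) hv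

def emb (k : ℕ) : Fin 3 ⊕ Fin k → VV k
  | inl s => inl s
  | inr i => inr (inl ⟨i.val, by omega⟩)

lemma part1 (k : ℕ) (c : Sym2 (VV k) → ℕ) (hc : Proper (G k) c)
    (hn : numColours (G k) c ≤ 2 * k + 3) : Rainbow (G k) (H k) c := by
  have inj : Function.Injective (emb k) := by
    rintro (s | i) (t | j) h <;> simp [emb, Fin.ext_iff] at h ⊢ <;> exact h
  have hom : ∀ a b, (H k).Adj a b → (G k).Adj (emb k a) (emb k b) := by
    rintro (s | i) (t | j) h <;> simp only [HB, B] at h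
    · exact h
    · exact ⟨h, j.2⟩
    · exact ⟨h, i.2⟩
  have key : ∀ w, (H k).Adj (inl 0) w → c s(inl 0, emb k w) ≠ c s(inl 1, inl 2) := by
    rintro (s | i) h
    · have h01 : (G k).Adj (inl 0) (inl 1) := show (0 : Fin 3) ≠ 1 by decide
      have h02 : (G k).Adj (inl 0) (inl 2) := show (0 : Fin 3) ≠ 2 by decide
      have h12 : (G k).Adj (inl 1) (inl 2) := show (1 : Fin 3) ≠ 2 by decide
      have hs : s = 1 ∨ s = 2 := by
        simp only [HB, B] at h
        fin_cases s <;> simp_all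
      rcases hs with rfl | rfl
      · rw [Sym2.eq_swap]
        exact hc _ _ _ h01.symm h12 (by simp)
      · rw [Sym2.eq_swap, Sym2.eq_swap (a := inl 1)]
        exact hc _ _ _ h02.symm h12.symm (by simp)
    · exact forced k c hc hn _ i.2
  refine ⟨emb k, inj, hom, fun e he e' he' h => ?_⟩
  rcases edges e he with ⟨w, hw, rfl⟩ | rfl <;> rcases edges e' he' with ⟨w', hw', rfl⟩ | rfl
  · by_cases hne : w = w'
    · rw [hne]
    · exact absurd h (hc _ _ _ (hom _ _ hw) (hom _ _ hw') fun e => hne (inj e))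
  · exact absurd h (key w hw)
  · exact absurd h.symm (key w' hw')
  · rfl

open Classical in
noncomputable def red (k : ℕ) (e : Sym2 (VV k)) : Sym2 (VV k) :=
  if e = s(inl 1, inl 2) then s(inl 0, inr (inl 0))
  else if e = s(inl 0, inl 2) then s(inl 1, inr (inr 0)) else e

lemma red_proper (k : ℕ) (u v w : VV k) (h : v ≠ w) (h1 : u ≠ v) (h2 : u ≠ w) :
    red k s(u, v) ≠ red k s(u, w) := by
  unfold red
  split_ifs with a b c d e f g i <;> intro hh <;> simp only [Sym2.eq_iff] at * <;> aesop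

lemma tri {k : ℕ} (u v w : VV k) (h1 : (G k).Adj u v) (h2 : (G k).Adj u w) (h3 : (G k).Adj v w) :
    ∃ s t r : Fin 3, u = inl s ∧ v = inl t ∧ w = inl r := by
  rcases u with s | s | s <;> rcases v with t | t | t <;> rcases w with r | r | r <;>
  simp only [GA, A] at h1 h2 h3 <;> first | exact ⟨_, _, _, rfl, rfl, rfl⟩ | (exfalso; simp_all)

lemma hit {k : ℕ} (hk : 0 < k) (g : Fin k → Fin (2 * k + 3)) (hg : Function.Injective g)
    (hl : ∀ i, (g i).val < k) : ∃ i, g i = 0 := by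
  have inj : Function.Injective fun i => (⟨(g i).val, hl i⟩ : Fin k) := by
    intro i j h
    exact hg (Fin.ext (by simpa using h))
  obtain ⟨i, hi⟩ := Finite.injective_iff_surjective.1 inj ⟨0, hk⟩
  exact ⟨i, Fin.ext (by simpa using hi)⟩

lemma part2 (k : ℕ) (hk : 0 < k) : ∃ c, Proper (G k) c ∧ ¬ Rainbow (G k) (H k) c := by
  obtain ⟨enc, henc⟩ := exists_injective_nat (Sym2 (VV k))
  refine ⟨fun e => enc (red k e), fun u v w h1 h2 h e =>
    red_proper k u v w h h1.ne h2.ne (henc e), ?_⟩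
  rintro ⟨f, inj, hom, rb⟩
  have h01 : (H k).Adj (inl 0) (inl 1) := show (0 : Fin 3) ≠ 1 by decide
  have h02 : (H k).Adj (inl 0) (inl 2) := show (0 : Fin 3) ≠ 2 by decide
  have h12 : (H k).Adj (inl 1) (inl 2) := show (1 : Fin 3) ≠ 2 by decide
  have h0i : ∀ i, (H k).Adj (inl 0) (inr i) := fun i => rfl
  obtain ⟨s, t, r, e0, e1, e2⟩ := tri _ _ _ (hom _ _ h01) (hom _ _ h02) (hom _ _ h12)
  have st : s ≠ t := fun e => by have := inj (e0.trans (e ▸ e1.symm)); simp at this
  have sr : s ≠ r := fun e => by have := inj (e0.trans (e ▸ e2.symm)); simp at this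
  have tr : t ≠ r := fun e => by have := inj (e1.trans (e ▸ e2.symm)); simp at this
  have nl : ∀ i q, f (inr i) ≠ inl q := by
    intro i q e
    have : q = s ∨ q = t ∨ q = r :=
      (by decide : ∀ s t r q : Fin 3, s ≠ t → s ≠ r → t ≠ r → q = s ∨ q = t ∨ q = r)
        s t r q st sr tr
    rcases this with rfl | rfl | rfl
    · have := inj (e.trans e0.symm); simp at this
    · have := inj (e.trans e1.symm); simp at this
    · have := inj (e.trans e2.symm); simp at this
  have fin : ∀ i, red k s(inl s, f (inr i)) ≠ red k s(inl t, inl r) := by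
    intro i e
    have := rb s(inl 0, inr i) (h0i i) s(inl 1, inl 2) h12 (by
      simp only [Sym2.map_mk, e0, e1, e2, e])
    simp at this
  have hs : s = 0 ∨ s = 1 ∨ s = 2 := (by decide : ∀ s : Fin 3, s = 0 ∨ s = 1 ∨ s = 2) s
  rcases hs with rfl | rfl | rfl
  · have : ∀ i, ∃ j : Fin (2 * k + 3), j.val < k ∧ f (inr i) = inr (inl j) := by
      intro i
      have h := hom _ _ (h0i i)
      rw [e0] at h
      rcases hf : f (inr i) with q | j | j
      · exact absurd hf (nl i q)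
      · rw [hf] at h; exact ⟨j, h.2, rfl⟩
      · rw [hf] at h; exact absurd h.1 (by decide)
    choose g hl hg using this
    obtain ⟨i, hi⟩ := hit hk g (fun i j e => by
      have := inj ((hg i).trans (e ▸ (hg j).symm)); simpa using this) hl
    apply fin i
    rw [hg i, hi]
    have : (t = 1 ∧ r = 2) ∨ (t = 2 ∧ r = 1) :=
      (by decide : ∀ t r : Fin 3, 0 ≠ t → 0 ≠ r → t ≠ r → (t = 1 ∧ r = 2) ∨ (t = 2 ∧ r = 1))
        t r st sr tr
    rcases this with ⟨rfl, rfl⟩ | ⟨rfl, rfl⟩ <;> simp [red]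
  · have : ∀ i, ∃ j : Fin (2 * k + 3), j.val < k ∧ f (inr i) = inr (inr j) := by
      intro i
      have h := hom _ _ (h0i i)
      rw [e0] at h
      rcases hf : f (inr i) with q | j | j
      · exact absurd hf (nl i q)
      · rw [hf] at h; exact absurd h.1 (by decide)
      · rw [hf] at h; exact ⟨j, h.2, rfl⟩
    choose g hl hg using this
    obtain ⟨i, hi⟩ := hit hk g (fun i j e => by
      have := inj ((hg i).trans (e ▸ (hg j).symm)); simpa using this) hl
    apply fin i
    rw [hg i, hi]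
    have : (t = 0 ∧ r = 2) ∨ (t = 2 ∧ r = 0) :=
      (by decide : ∀ t r : Fin 3, 1 ≠ t → 1 ≠ r → t ≠ r → (t = 0 ∧ r = 2) ∨ (t = 2 ∧ r = 0))
        t r st sr tr
    rcases this with ⟨rfl, rfl⟩ | ⟨rfl, rfl⟩ <;> simp [red]
  · have h := hom _ _ (h0i ⟨0, hk⟩)
    rw [e0] at h
    rcases hf : f (inr ⟨0, hk⟩) with q | j | j
    · exact absurd hf (nl _ q)
    · rw [hf] at h; exact absurd h.1 (by decide)
    · rw [hf] at h; exact absurd h.1 (by decide)

theorem result : ∀ N : ℕ, ∃ (W V : Type) (_ : Fintype W) (_ : Fintype V)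
    (H : SimpleGraph W) (G : SimpleGraph V), N ≤ Fintype.card W ∧ H.Connected ∧ Witness G H := by
  intro N
  refine ⟨Fin 3 ⊕ Fin (N + 1), VV (N + 1), inferInstance, inferInstance, H _, G _, by simp; omega,
    H_conn _, fun c hc hn => part1 _ c hc (hn ▸ chi_le _), part2 _ (by omega)⟩

end Pool.Agent.Results.MP_1c393c_co.Family
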